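import Mathlib

/-!
# Unramified points on finite covers: definitions and elementary lemmas (helper922)
-/

set_option autoImplicit false

open MvPolynomial

namespace Pool.Agent.U922.UC

/-- `p` vanishes on the generic fibre of `h = 0`: here `h` and `p` are polynomials in
`t_1, …, t_d` (the variables `some b`) and `Θ` (the variable `none`), and `h` divides `c * p` for
some nonzero polynomial `c` in `t_1, …, t_d`. -/
def Vanish {d : ℕ} (h p : MvPolynomial (Option (Fin d)) ℤ) : Prop :=
  ∃ c : MvPolynomial (Fin d) ℤ, c ≠ 0 ∧ h ∣ rename some c * p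

/-- The data of a subvariety of affine `n`-space over `ℚ`: the image of the hypersurface
`h (t, Θ) = 0`, with `d` parameters `t_b`, under `x j = b j (t, Θ) / b0 (t)`. For the integral points
of the subvariety (`Sub.Has`) the parameters `t_b` are the coordinates `x (ι b)`. (It is not required
that `b (ι b) = b0 * t_b` on the hypersurface.) -/
structure Sub (n : ℕ) where
  /-- the number of the parameters -/
  d : ℕ
  /-- the coordinates which are the parameters -/
  ι : Fin d → Fin n
  h : MvPolynomial (Option (Fin d)) ℤ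
  b0 : MvPolynomial (Fin d) ℤ
  b : Fin n → MvPolynomial (Option (Fin d)) ℤ

variable {n : ℕ}

/-- The integral point `x` lies on the subvariety. -/
def Sub.Has (V : Sub n) (x : Fin n → ℤ) : Prop :=
  eval (fun b => x (V.ι b)) V.b0 ≠ 0 ∧ ∃ θ : ℤ,
    eval (fun o => o.elim θ fun b => x (V.ι b)) V.h = 0 ∧
    ∀ j, eval (fun b => x (V.ι b)) V.b0 * x j =
      eval (fun o => o.elim θ fun b => x (V.ι b)) (V.b j)

/-- The polynomial `h` is irreducible over the field `ℚ (t)` (it may have a factor in `ℤ[t]`), the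
degrees of `h`, `b0`, `b j` are at most `K` and their coefficients at most `(Y + 2) ^ K`. -/
structure Sub.Bounded (V : Sub n) (K Y : ℕ) : Prop where
  dim : V.d ≤ n
  ne : V.h ≠ 0
  one : ¬ Vanish V.h 1
  mul : ∀ p q, Vanish V.h (p * q) → Vanish V.h p ∨ Vanish V.h q
  b0 : V.b0 ≠ 0
  deg_h : V.h.totalDegree ≤ K
  deg_b0 : V.b0.totalDegree ≤ K
  deg_b : ∀ j, (V.b j).totalDegree ≤ K
  coeff_h : ∀ m, |V.h.coeff m| ≤ ((Y : ℤ) + 2) ^ K
  coeff_b0 : ∀ m, |V.b0.coeff m| ≤ ((Y : ℤ) + 2) ^ K
  coeff_b : ∀ j m, |(V.b j).coeff m| ≤ ((Y : ℤ) + 2) ^ K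

/-- The value in `L` of a polynomial in the coordinates of affine space, where `φ` is a
homomorphism from the polynomials in `t`, `Θ` to a field `L`. -/
noncomputable def Sub.val (V : Sub n) {L : Type} [Field L]
    (φ : MvPolynomial (Option (Fin V.d)) ℤ →+* L) : MvPolynomial (Fin n) ℤ →+* L :=
  eval₂Hom (Int.castRingHom L) fun j => φ (V.b j) / φ (rename some V.b0)

/-- `φ` maps to a field `L`, and its kernel consists of the polynomials that vanish on `V`; so `L`
contains the function field of `V`. -/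
def Sub.Fun (V : Sub n) {L : Type} [Field L] (φ : MvPolynomial (Option (Fin V.d)) ℤ →+* L) :
    Prop := ∀ p, φ p = 0 ↔ Vanish V.h p

/-- Over the function field of `V` the polynomial `P` is not zero and has a factor of degree at least
`1` and at most `K`. -/
def Sub.Factor (V : Sub n) (P : Polynomial (MvPolynomial (Fin n) ℤ)) (K : ℕ) : Prop :=
  ∀ (L : Type) [Field L] (φ : MvPolynomial (Option (Fin V.d)) ℤ →+* L), V.Fun φ →
    P.map (V.val φ) ≠ 0 ∧
      ∃ M : Polynomial L, 1 ≤ M.natDegree ∧ M.natDegree ≤ K ∧ M ∣ P.map (V.val φ)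

/-- The degree in `z`, the total degrees in `x` of the coefficients, and the logarithms of the
integer coefficients are at most `Y ^ δ`. -/
def Small (Y : ℕ) (δ : ℝ) (P : Polynomial (MvPolynomial (Fin n) ℤ)) : Prop :=
  (P.natDegree : ℝ) ≤ (Y : ℝ) ^ δ ∧ ∀ l, ((P.coeff l).totalDegree : ℝ) ≤ (Y : ℝ) ^ δ ∧
    ∀ m, ((|(P.coeff l).coeff m| : ℤ) : ℝ) ≤ Real.exp ((Y : ℝ) ^ δ)

/-- `x` is an integral point in the box `[1, Y] ^ n`, and each cover `P k (x, z) = 0` has an
unramified integral point `z k` over `x` with `|z k| ≤ exp (Y ^ δ)`. -/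
def Lifts {q : ℕ} (Y : ℕ) (δ : ℝ) (P : Fin q → Polynomial (MvPolynomial (Fin n) ℤ))
    (x : Fin n → ℤ) : Prop :=
  (∀ j, 1 ≤ x j ∧ x j ≤ (Y : ℤ)) ∧ ∀ k, ∃ z : ℤ, ((|z| : ℤ) : ℝ) ≤ Real.exp ((Y : ℝ) ^ δ) ∧
    ((P k).map (eval x)).eval z = 0 ∧ ((P k).derivative.map (eval x)).eval z ≠ 0

/-! ## Points on zero-dimensional subvarieties -/

lemma card_roots_le {d : ℕ} (hd : d = 0) (h : MvPolynomial (Option (Fin d)) ℤ) (hh : h ≠ 0)
    (f : Fin d → ℤ) :
    {θ : ℤ | eval (fun o => o.elim θ f) h = 0}.Finite ∧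
      {θ : ℤ | eval (fun o => o.elim θ f) h = 0}.ncard ≤ h.totalDegree := by
  subst hd
  set p : Polynomial ℤ := MvPolynomial.uniqueAlgEquiv ℤ (Option (Fin 0)) h with hp
  have hp0 : p ≠ 0 := by
    rw [hp, Ne, EmbeddingLike.map_eq_zero_iff]
    exact hh
  have hev : ∀ θ : ℤ, eval (fun o => o.elim θ f) h = p.eval θ := by
    intro θ
    have h1 : (Polynomial.evalRingHom θ).comp
        ((MvPolynomial.uniqueAlgEquiv ℤ (Option (Fin 0))).toAlgHom.toRingHom) =
        (eval (fun o : Option (Fin 0) => o.elim θ f)) := by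
      apply MvPolynomial.ringHom_ext
      · intro r
        simp
      · intro i
        cases i with
        | none => simp [MvPolynomial.uniqueAlgEquiv]
        | some b => exact b.elim0
    rw [← h1]
    rfl
  have hset : {θ : ℤ | eval (fun o => o.elim θ f) h = 0} = (p.roots.toFinset : Set ℤ) := by
    ext θ
    simp only [Set.mem_ofPred_eq, hev, Finset.mem_coe, Multiset.mem_toFinset]
    rw [Polynomial.mem_roots hp0]
    rfl
  have hdeg : p.natDegree ≤ h.totalDegree := by
    rw [Polynomial.natDegree_le_iff_coeff_eq_zero]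
    intro N hN
    rw [hp, MvPolynomial.coeff_uniqueAlgEquiv]
    by_contra hne
    have h2 := MvPolynomial.le_totalDegree (MvPolynomial.mem_support_iff.2 hne)
    rw [Finsupp.sum_single_index rfl] at h2
    omega
  rw [hset]
  refine ⟨Finset.finite_toSet _, ?_⟩
  rw [Set.ncard_coe_finset]
  exact (Multiset.toFinset_card_le _).trans ((Polynomial.card_roots' p).trans hdeg)

lemma Sub.ncard_zero (V : Sub n) {K Y : ℕ} (hV : V.Bounded K Y) (hd : V.d = 0) :
    {x | V.Has x}.Finite ∧ {x | V.Has x}.ncard ≤ K := by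
  obtain ⟨d, ι, h, b0, b⟩ := V
  dsimp only at hd
  subst hd
  obtain ⟨h1, h2⟩ := card_roots_le rfl h hV.ne (fun b : Fin 0 => b.elim0)
  have key : {x | Sub.Has ⟨0, ι, h, b0, b⟩ x} ⊆
      (fun θ : ℤ => fun j => (eval (fun o : Option (Fin 0) => o.elim θ fun b => b.elim0) (b j)) /
        (eval (fun b : Fin 0 => b.elim0) b0 : ℤ)) ''
      {θ : ℤ | eval (fun o : Option (Fin 0) => o.elim θ fun b => b.elim0) h = 0} := by
    rintro x ⟨hx0, θ, hθ, hx⟩
    have e1 : (fun b : Fin 0 => x (ι b)) = fun b => b.elim0 := by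
      funext b; exact b.elim0
    dsimp only at hx0 hθ hx
    rw [e1] at hx0 hθ hx
    refine ⟨θ, hθ, ?_⟩
    funext j
    dsimp only
    rw [← hx j, Int.mul_ediv_cancel_left _ hx0]
  have hf := h1.image (fun θ : ℤ => fun j =>
    (eval (fun o : Option (Fin 0) => o.elim θ fun b => b.elim0) (b j)) /
        (eval (fun b : Fin 0 => b.elim0) b0 : ℤ))
  exact ⟨hf.subset key, (Set.ncard_le_ncard key hf).trans
    ((Set.ncard_image_le h1).trans (h2.trans hV.deg_h))⟩

/-! ## Factors of `X ^ r - a` -/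

/-- If `X ^ r - a` has a factor of degree `e` over a field then `a ^ e` is an `r`-th power. -/
lemma pow_of_factor {L : Type} [Field L] {r : ℕ} {a : L} {M : Polynomial L}
    (hr : 1 ≤ r) (hM : M ∣ Polynomial.X ^ r - Polynomial.C a) :
    ∃ g : L, a ^ M.natDegree = g ^ r := by
  classical
  have hne : (Polynomial.X ^ r - Polynomial.C a : Polynomial L) ≠ 0 :=
    Polynomial.X_pow_sub_C_ne_zero (by omega) a
  have hM0 : M ≠ 0 := fun h => hne (by rw [h] at hM; exact zero_dvd_iff.1 hM)
  let Ω := AlgebraicClosure L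
  let ψ : L →+* Ω := algebraMap L Ω
  set M1 : Polynomial L := M * Polynomial.C M.leadingCoeff⁻¹ with hM1
  have hmon : M1.Monic := Polynomial.monic_mul_leadingCoeff_inv hM0
  have hdeg : M1.natDegree = M.natDegree := Polynomial.natDegree_mul_leadingCoeff_inv M hM0
  have hdvd : M1 ∣ Polynomial.X ^ r - Polynomial.C a := by
    obtain ⟨Q, hQ⟩ := hM
    refine ⟨Polynomial.C M.leadingCoeff * Q, ?_⟩
    rw [hM1, hQ]
    have : (Polynomial.C M.leadingCoeff⁻¹ * Polynomial.C M.leadingCoeff : Polynomial L) = 1 := by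
      rw [← Polynomial.C_mul, inv_mul_cancel₀ (Polynomial.leadingCoeff_ne_zero.2 hM0),
        Polynomial.C_1]
    calc M * Q = M * (Polynomial.C M.leadingCoeff⁻¹ * Polynomial.C M.leadingCoeff) * Q := by
          rw [this, mul_one]
      _ = _ := by ring
  -- over the algebraic closure
  have hsplit : (M1.map ψ).Splits := IsAlgClosed.splits _
  have hmonψ : (M1.map ψ).Monic := hmon.map ψ
  have hprod : (-1) ^ M.natDegree * ψ (M1.coeff 0) = (M1.map ψ).roots.prod := by
    have := hsplit.coeff_zero_eq_prod_roots_of_monic hmonψ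
    rw [Polynomial.coeff_map, Polynomial.natDegree_map, hdeg] at this
    rw [this, ← mul_assoc, ← mul_pow, neg_one_mul, neg_neg, one_pow, one_mul]
  have hroots : ∀ α ∈ (M1.map ψ).roots, α ^ r = ψ a := by
    intro α hα
    have h1 : (M1.map ψ).eval α = 0 := (Polynomial.mem_roots hmonψ.ne_zero).1 hα
    have h2 : ((Polynomial.X ^ r - Polynomial.C a : Polynomial L).map ψ).eval α = 0 := by
      obtain ⟨Q, hQ⟩ := hdvd
      rw [hQ, Polynomial.map_mul, Polynomial.eval_mul, h1, zero_mul]
    simp only [Polynomial.map_sub, Polynomial.map_pow, Polynomial.map_X, Polynomial.map_C,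
      Polynomial.eval_sub, Polynomial.eval_pow, Polynomial.eval_X, Polynomial.eval_C] at h2
    exact sub_eq_zero.1 h2
  have hcard : Multiset.card (M1.map ψ).roots = M.natDegree := by
    rw [← hdeg, ← Polynomial.natDegree_map ψ]
    exact (Polynomial.splits_iff_card_roots.1 hsplit)
  have hpow : ((M1.map ψ).roots.prod) ^ r = ψ a ^ M.natDegree := by
    have h3 : ((M1.map ψ).roots.map fun α => α ^ r).prod = ((M1.map ψ).roots.prod) ^ r :=
      (Multiset.prod_map_pow (m := (M1.map ψ).roots) (f := fun α => α) (n := r)).trans (by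
        rw [Multiset.map_id'])
    rw [← h3, Multiset.map_congr rfl hroots, Multiset.map_const', Multiset.prod_replicate, hcard]
  refine ⟨(-1) ^ M.natDegree * M1.coeff 0, ?_⟩
  apply (algebraMap L Ω).injective
  rw [map_pow, map_pow, map_mul, map_pow, map_neg, map_one]
  change ψ a ^ M.natDegree = ((-1) ^ M.natDegree * ψ (M1.coeff 0)) ^ r
  rw [hprod, hpow]

end Pool.Agent.U922.UC
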